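import Mathlib

/-!
MP_d4551b_al, Q1.  Minimal invertible pieces of `r` and of `r ^ k` in one-relator special inverse
monoids.  The answer is negative: for `r = a c a c a⁻¹ a⁻¹ a⁻¹ a a a c⁻¹ a⁻¹ c⁻¹ a⁻¹ c` and every
even `k ≥ 2` the two sets of pieces differ.
-/

namespace Pool.Agent.Results.MP_d4551b_al.PiecesOfPowersDiffer

/-- Words over `A ∪ A⁻¹`: the letter `(x, true)` is `x`, the letter `(x, false)` is `x⁻¹`. -/
abbrev SWord (A : Type) := List (A × Bool)

/-- The formal inverse of a word. -/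
def SWord.inv {A : Type} (w : SWord A) : SWord A :=
  (w.map (fun p => (p.1, !p.2))).reverse

/-- Defining relations of `Inv⟨A | w = 1⟩` as a monoid: the Wagner relations
(`u u⁻¹ u = u` and `u u⁻¹ v v⁻¹ = v v⁻¹ u u⁻¹`) of the free inverse monoid, and `w = 1`. -/
inductive InvRel {A : Type} (w : SWord A) :
    FreeMonoid (A × Bool) → FreeMonoid (A × Bool) → Prop
  | regular (u : SWord A) :
      InvRel w (FreeMonoid.ofList (u ++ u.inv ++ u)) (FreeMonoid.ofList u)
  | comm (u v : SWord A) :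
      InvRel w (FreeMonoid.ofList (u ++ u.inv ++ (v ++ v.inv)))
        (FreeMonoid.ofList (v ++ v.inv ++ (u ++ u.inv)))
  | relator : InvRel w (FreeMonoid.ofList w) 1

/-- The special inverse monoid `Inv⟨A | w = 1⟩`. -/
abbrev InvMonoid {A : Type} (w : SWord A) : Type := (conGen (InvRel w)).Quotient

/-- The element of `Inv⟨A | w = 1⟩` represented by the word `u`. -/
def val {A : Type} (w u : SWord A) : InvMonoid w :=
  ((FreeMonoid.ofList u : FreeMonoid (A × Bool)) : (conGen (InvRel w)).Quotient)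

/-- The set of minimal invertible pieces of `w` in `Inv⟨A | w = 1⟩`: `w` is cut after exactly those
prefixes that represent units, and the pieces are the factors between consecutive cuts. -/
def minimalPieces {A : Type} (w : SWord A) : Set (SWord A) :=
  {p | ∃ i j : ℕ, i < j ∧ j ≤ w.length ∧ IsUnit (val w (w.take i)) ∧ IsUnit (val w (w.take j)) ∧
    (∀ l, i < l → l < j → ¬ IsUnit (val w (w.take l))) ∧ p = (w.take j).drop i}

/-- The `k`-th power of a word. -/
def SWord.pow {A : Type} (r : SWord A) (k : ℕ) : SWord A := (List.replicate k r).flatten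

section general

variable {A : Type} (w : SWord A)

theorem val_append (u v : SWord A) : val w (u ++ v) = val w u * val w v := rfl

theorem val_nil : val w ([] : SWord A) = 1 := rfl

theorem val_cons (x : A × Bool) (u : SWord A) : val w (x :: u) = val w [x] * val w u := rfl

theorem val_regular (u : SWord A) : val w u * val w u.inv * val w u = val w u := by
  have h : (conGen (InvRel w)) (FreeMonoid.ofList (u ++ u.inv ++ u)) (FreeMonoid.ofList u) :=
    ConGen.Rel.of _ _ (InvRel.regular u)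
  exact (Con.eq _).2 h

theorem val_relator : val w w = 1 := by
  have h : (conGen (InvRel w)) (FreeMonoid.ofList w) 1 :=
    ConGen.Rel.of _ _ InvRel.relator
  exact (Con.eq _).2 h

/-- If `u` represents a right invertible element then `u u⁻¹ = 1`. -/
theorem mul_inv_of_right (u : SWord A) (n : InvMonoid w) (h : val w u * n = 1) :
    val w u * val w u.inv = 1 := by
  calc val w u * val w u.inv = val w u * val w u.inv * (val w u * n) := by rw [h, mul_one]
    _ = (val w u * val w u.inv * val w u) * n := by simp only [mul_assoc]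
    _ = 1 := by rw [val_regular, h]

end general

/-- The letters. -/
abbrev a : Fin 2 × Bool := (0, true)
abbrev a' : Fin 2 × Bool := (0, false)
abbrev c : Fin 2 × Bool := (1, true)
abbrev c' : Fin 2 × Bool := (1, false)

/-- `u = a c a c a⁻¹ a⁻¹ a⁻¹`. -/
def uw : SWord (Fin 2) := [a, c, a, c, a', a', a']

/-- `r = u u⁻¹ c`. -/
def rw0 : SWord (Fin 2) := uw ++ uw.inv ++ [c]

theorem uw_inv : uw.inv = [a, a, a, c', a', c', a'] := by
  decide

/-- In `Inv⟨a, c | r = 1⟩` the letter `a` is a unit. -/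
theorem unit_a : IsUnit (val rw0 [a]) := by
  set x := val rw0 [a] with hx
  set x' := val rw0 [a'] with hx'
  set y := val rw0 [c] with hy
  set y' := val rw0 [c'] with hy'
  have hrel : val rw0 uw * val rw0 uw.inv * y = 1 := val_relator rw0
  have huu : val rw0 uw * val rw0 uw.inv = 1 := by
    apply mul_inv_of_right rw0 uw (val rw0 uw.inv * y)
    rw [← mul_assoc]; exact hrel
  have hy1 : y = 1 := by rw [huu, one_mul] at hrel; exact hrel
  have hxx : x * x' = 1 := by
    have := mul_inv_of_right rw0 [a] (val rw0 (rw0.drop 1)) (by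
      have h : val rw0 [a] * val rw0 (rw0.drop 1) = val rw0 rw0 := by
        rw [← val_append]; rfl
      rw [h, val_relator])
    exact this
  have hy1' : y' = 1 := by
    have h := val_regular rw0 [c]
    have h2 : y * y' * y = y := h
    rw [hy1] at h2
    simpa using h2
  have hu : val rw0 uw = x * (y * (x * (y * (x' * (x' * x'))))) := rfl
  have hui : val rw0 uw.inv = x * (x * (x * (y' * (x' * (y' * x'))))) := by
    rw [uw_inv]; rfl
  have hu2 : val rw0 uw = x' := by
    rw [hu, hy1, one_mul, one_mul]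
    calc x * (x * (x' * (x' * x'))) = x * ((x * x') * (x' * x')) := by simp only [mul_assoc]
      _ = (x * x') * x' := by rw [hxx, one_mul, ← mul_assoc, hxx]
      _ = x' := by rw [hxx, one_mul]
  have hui2 : val rw0 uw.inv = x := by
    rw [hui, hy1', one_mul, one_mul]
    calc x * (x * (x * (x' * x'))) = x * (x * ((x * x') * x')) := by simp only [mul_assoc]
      _ = x := by rw [hxx, one_mul, hxx, mul_one]
  rw [hu2, hui2] at huu
  exact ⟨⟨x, x', hxx, huu⟩, rfl⟩

/-- Partial injections of a set, composed from left to right. -/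
abbrev PInj (V : Type) : Type := V ≃. V

instance (V : Type) : Monoid (PInj V) where
  mul f g := PEquiv.trans f g
  one := PEquiv.refl V
  mul_assoc f g h := PEquiv.trans_assoc f g h
  one_mul f := PEquiv.refl_trans f
  mul_one f := PEquiv.trans_refl f

theorem PInj.mul_def {V : Type} (f g : PInj V) : f * g = PEquiv.trans f g := rfl

theorem PInj.one_def {V : Type} : (1 : PInj V) = PEquiv.refl V := rfl

/-- The homomorphism from words to partial injections determined by the letters. -/
def act {A V : Type} (g : A → V ≃. V) : FreeMonoid (A × Bool) →* PInj V :=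
  FreeMonoid.lift (fun p => if p.2 then g p.1 else (g p.1).symm)

theorem act_cons {A V : Type} (g : A → V ≃. V) (x : A × Bool) (u : SWord A) :
    act g (FreeMonoid.ofList (x :: u)) =
      PEquiv.trans (if x.2 then g x.1 else (g x.1).symm) (act g (FreeMonoid.ofList u)) := by
  rw [FreeMonoid.ofList_cons, map_mul]
  rfl

theorem act_append {A V : Type} (g : A → V ≃. V) (u v : SWord A) :
    act g (FreeMonoid.ofList (u ++ v)) =
      act g (FreeMonoid.ofList u) * act g (FreeMonoid.ofList v) := by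
  rw [FreeMonoid.ofList_append, map_mul]

theorem act_inv {A V : Type} (g : A → V ≃. V) (u : SWord A) :
    act g (FreeMonoid.ofList u.inv) = PEquiv.symm (act g (FreeMonoid.ofList u)) := by
  induction u with
  | nil => rfl
  | cons x u ih =>
    have h1 : SWord.inv (x :: u) = SWord.inv u ++ [(x.1, !x.2)] := by
      simp [SWord.inv]
    rw [h1, act_append, ih, act_cons, act_cons]
    rcases x with ⟨i, b⟩
    have h2 : (act g (FreeMonoid.ofList ([] : SWord A)) : PInj V) = PEquiv.refl V := rfl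
    rw [h2]
    cases b
    · show PEquiv.trans (PEquiv.symm (act g (FreeMonoid.ofList u)))
        ((g i).trans (PEquiv.refl V)) =
        PEquiv.symm ((g i).symm.trans (act g (FreeMonoid.ofList u)))
      rw [PEquiv.symm_trans_rev, PEquiv.trans_refl, PEquiv.symm_symm]
    · show PEquiv.trans (PEquiv.symm (act g (FreeMonoid.ofList u)))
        ((g i).symm.trans (PEquiv.refl V)) =
        PEquiv.symm ((g i).trans (act g (FreeMonoid.ofList u)))
      rw [PEquiv.symm_trans_rev, PEquiv.trans_refl]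

theorem pequiv_regular {V : Type} (f : V ≃. V) : (f.trans f.symm).trans f = f := by
  ext x y
  simp only [PEquiv.trans_eq_some]
  constructor
  · rintro ⟨z, ⟨t, h1, h2⟩, h3⟩
    rw [PEquiv.eq_some_iff] at h2
    have : z = x := PEquiv.inj f (b := t) h2 h1
    rw [this] at h3
    exact h3
  · intro h
    exact ⟨x, ⟨y, h, by rw [PEquiv.eq_some_iff]; exact h⟩, h⟩

theorem pequiv_idem {V : Type} (f : V ≃. V) (x y : V) :
    (f.trans f.symm) x = some y ↔ x = y ∧ (f x).isSome := by
  rw [PEquiv.trans_eq_some]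
  constructor
  · rintro ⟨t, h1, h2⟩
    rw [PEquiv.eq_some_iff] at h2
    exact ⟨PEquiv.inj f (b := t) h1 h2, by rw [h1]; rfl⟩
  · rintro ⟨rfl, h⟩
    obtain ⟨t, ht⟩ := Option.isSome_iff_exists.1 h
    exact ⟨t, ht, by rw [PEquiv.eq_some_iff]; exact ht⟩

theorem pequiv_comm {V : Type} (f h : V ≃. V) :
    (f.trans f.symm).trans (h.trans h.symm) = (h.trans h.symm).trans (f.trans f.symm) := by
  ext x y
  rw [PEquiv.trans_eq_some, PEquiv.trans_eq_some]
  simp only [pequiv_idem]
  constructor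
  · rintro ⟨t, ⟨rfl, h1⟩, ⟨rfl, h2⟩⟩
    exact ⟨_, ⟨rfl, h2⟩, ⟨rfl, h1⟩⟩
  · rintro ⟨t, ⟨rfl, h1⟩, ⟨rfl, h2⟩⟩
    exact ⟨_, ⟨rfl, h2⟩, ⟨rfl, h1⟩⟩

/-- An action by partial injections in which `w` acts as the identity gives a homomorphism from
`Inv⟨A | w = 1⟩`. -/
def liftAct {A V : Type} (g : A → V ≃. V) (w : SWord A)
    (hw : act g (FreeMonoid.ofList w) = 1) : InvMonoid w →* PInj V :=
  Con.lift (conGen (InvRel w)) (act g) (by
    rw [Con.conGen_le]
    intro x y h
    rw [Con.ker_rel]
    cases h with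
    | regular u =>
      rw [act_append, act_append, act_inv]
      exact pequiv_regular _
    | comm u v =>
      rw [act_append, act_append, act_append, act_append, act_append, act_append, act_inv,
        act_inv]
      exact pequiv_comm _ _
    | relator =>
      rw [hw, map_one])

theorem liftAct_val {A V : Type} (g : A → V ≃. V) (w : SWord A)
    (hw : act g (FreeMonoid.ofList w) = 1) (u : SWord A) :
    liftAct g w hw (val w u) = act g (FreeMonoid.ofList u) := rfl

/-- The involution of `ℕ × ℕ` by which `c` acts. -/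
def cfun (p : ℕ × ℕ) : ℕ × ℕ :=
  if p.2 = 0 then
    (if p.1 % 4 = 0 then (p.1 / 2 + 1, 1) else if p.1 % 4 = 2 then (p.1 / 2, 2) else (p.1, 0))
  else if p.2 = 1 then
    (if p.1 % 2 = 0 then (2 * p.1 + 1, 3) else (2 * (p.1 - 1), 0))
  else if p.2 = 2 then
    (if p.1 % 2 = 0 then (2 * p.1 + 3, 3) else (2 * p.1, 0))
  else if p.2 = 3 then
    (if p.1 % 4 = 1 then ((p.1 - 1) / 2, 1) else if p.1 % 4 = 3 then ((p.1 - 3) / 2, 2)
      else (p.1, 3))
  else p

theorem cf0 (j : ℕ) : cfun (4 * j, 0) = (2 * j + 1, 1) := by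
  have h1 : 4 * j % 4 = 0 := by omega
  have h2 : 4 * j / 2 = 2 * j := by omega
  simp only [cfun, h1, h2, if_true]

theorem cf0' (j : ℕ) : cfun (4 * j + 2, 0) = (2 * j + 1, 2) := by
  have h1 : ¬ (4 * j + 2) % 4 = 0 := by omega
  have h1' : (4 * j + 2) % 4 = 2 := by omega
  have h2 : (4 * j + 2) / 2 = 2 * j + 1 := by omega
  unfold cfun
  rw [if_pos rfl, if_neg h1, if_pos h1', h2]

theorem cf0o (j : ℕ) : cfun (2 * j + 1, 0) = (2 * j + 1, 0) := by
  have h1 : ¬ (2 * j + 1) % 4 = 0 := by omega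
  have h1' : ¬ (2 * j + 1) % 4 = 2 := by omega
  unfold cfun
  rw [if_pos rfl, if_neg h1, if_neg h1']

theorem ne10 : ¬ (1 : ℕ) = 0 := by omega
theorem ne20 : ¬ (2 : ℕ) = 0 := by omega
theorem ne21 : ¬ (2 : ℕ) = 1 := by omega
theorem ne30 : ¬ (3 : ℕ) = 0 := by omega
theorem ne31 : ¬ (3 : ℕ) = 1 := by omega
theorem ne32 : ¬ (3 : ℕ) = 2 := by omega

theorem cf1e (j : ℕ) : cfun (2 * j, 1) = (4 * j + 1, 3) := by
  have h1 : (2 * j) % 2 = 0 := by omega
  have h2 : 2 * (2 * j) + 1 = 4 * j + 1 := by omega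
  unfold cfun
  rw [if_neg ne10, if_pos rfl, if_pos h1, h2]

theorem cf1o (j : ℕ) : cfun (2 * j + 1, 1) = (4 * j, 0) := by
  have h1 : ¬ (2 * j + 1) % 2 = 0 := by omega
  have h2 : 2 * (2 * j + 1 - 1) = 4 * j := by omega
  unfold cfun
  rw [if_neg ne10, if_pos rfl, if_neg h1, h2]

theorem cf2e (j : ℕ) : cfun (2 * j, 2) = (4 * j + 3, 3) := by
  have h1 : (2 * j) % 2 = 0 := by omega
  have h2 : 2 * (2 * j) + 3 = 4 * j + 3 := by omega
  unfold cfun
  rw [if_neg ne20, if_neg ne21, if_pos rfl, if_pos h1, h2]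

theorem cf2o (j : ℕ) : cfun (2 * j + 1, 2) = (4 * j + 2, 0) := by
  have h1 : ¬ (2 * j + 1) % 2 = 0 := by omega
  have h2 : 2 * (2 * j + 1) = 4 * j + 2 := by omega
  unfold cfun
  rw [if_neg ne20, if_neg ne21, if_pos rfl, if_neg h1, h2]

theorem cf3 (j : ℕ) : cfun (4 * j + 1, 3) = (2 * j, 1) := by
  have h1 : (4 * j + 1) % 4 = 1 := by omega
  have h2 : (4 * j + 1 - 1) / 2 = 2 * j := by omega
  unfold cfun
  rw [if_neg ne30, if_neg ne31, if_neg ne32, if_pos rfl, if_pos h1, h2]

theorem cf3' (j : ℕ) : cfun (4 * j + 3, 3) = (2 * j, 2) := by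
  have h1 : ¬ (4 * j + 3) % 4 = 1 := by omega
  have h1' : (4 * j + 3) % 4 = 3 := by omega
  have h2 : (4 * j + 3 - 3) / 2 = 2 * j := by omega
  unfold cfun
  rw [if_neg ne30, if_neg ne31, if_neg ne32, if_pos rfl, if_neg h1, if_pos h1', h2]

theorem cf3e (j : ℕ) : cfun (2 * j, 3) = (2 * j, 3) := by
  have h1 : ¬ (2 * j) % 4 = 1 := by omega
  have h1' : ¬ (2 * j) % 4 = 3 := by omega
  unfold cfun
  rw [if_neg ne30, if_neg ne31, if_neg ne32, if_pos rfl, if_neg h1, if_neg h1']

theorem cf4 (i n : ℕ) : cfun (i, n + 4) = (i, n + 4) := by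
  have h0 : ¬ n + 4 = 0 := by omega
  have h1 : ¬ n + 4 = 1 := by omega
  have h2 : ¬ n + 4 = 2 := by omega
  have h3 : ¬ n + 4 = 3 := by omega
  unfold cfun
  rw [if_neg h0, if_neg h1, if_neg h2, if_neg h3]

/-- The eleven kinds of points. -/
theorem cases11 (P : ℕ × ℕ → Prop) (h0 : ∀ j, P (4 * j, 0)) (h0' : ∀ j, P (4 * j + 2, 0))
    (h0o : ∀ j, P (2 * j + 1, 0)) (h1e : ∀ j, P (2 * j, 1)) (h1o : ∀ j, P (2 * j + 1, 1))
    (h2e : ∀ j, P (2 * j, 2)) (h2o : ∀ j, P (2 * j + 1, 2)) (h3 : ∀ j, P (4 * j + 1, 3))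
    (h3' : ∀ j, P (4 * j + 3, 3)) (h3e : ∀ j, P (2 * j, 3)) (h4 : ∀ i n, P (i, n + 4)) :
    ∀ p, P p := by
  rintro ⟨i, n⟩
  rcases n with _ | _ | _ | _ | n
  · have : i = 4 * (i / 4) ∨ i = 4 * (i / 4) + 2 ∨ i = 2 * (i / 2) + 1 := by omega
    rcases this with h | h | h
    · rw [h]; exact h0 _
    · rw [h]; exact h0' _
    · rw [h]; exact h0o _
  · have : i = 2 * (i / 2) ∨ i = 2 * (i / 2) + 1 := by omega
    rcases this with h | h
    · rw [h]; exact h1e _
    · rw [h]; exact h1o _
  · have : i = 2 * (i / 2) ∨ i = 2 * (i / 2) + 1 := by omega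
    rcases this with h | h
    · rw [h]; exact h2e _
    · rw [h]; exact h2o _
  · have : i = 4 * (i / 4) + 1 ∨ i = 4 * (i / 4) + 3 ∨ i = 2 * (i / 2) := by omega
    rcases this with h | h | h
    · rw [h]; exact h3 _
    · rw [h]; exact h3' _
    · rw [h]; exact h3e _
  · exact h4 _ _

theorem cfun_invol (p : ℕ × ℕ) : cfun (cfun p) = p := by
  revert p
  apply cases11
  · intro j; rw [cf0, cf1o]
  · intro j; rw [cf0', cf2o]
  · intro j; rw [cf0o, cf0o]
  · intro j; rw [cf1e, cf3]
  · intro j; rw [cf1o, cf0]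
  · intro j; rw [cf2e, cf3']
  · intro j; rw [cf2o, cf0']
  · intro j; rw [cf3, cf1e]
  · intro j; rw [cf3', cf2e]
  · intro j; rw [cf3e, cf3e]
  · intro i n; rw [cf4, cf4]

/-- The shift by which `a` acts. -/
def afun (p : ℕ × ℕ) : ℕ × ℕ := (p.1, p.2 + 1)

/-- The key property: `c a c a` maps everything into the range of `a³`. -/
theorem key (p : ℕ × ℕ) : ∃ q : ℕ × ℕ, cfun (afun (cfun (afun p))) = afun (afun (afun q)) := by
  have main : 3 ≤ (cfun (afun (cfun (afun p)))).2 := by
    revert p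
    apply cases11
    · intro j
      have h : afun (4 * j, 0) = (2 * (2 * j), 1) := by simp [afun]; omega
      rw [h, cf1e]
      show 3 ≤ (cfun (4 * (2 * j) + 1, 0 + 4)).2
      rw [cf4]; simp
    · intro j
      have h : afun (4 * j + 2, 0) = (2 * (2 * j + 1), 1) := by simp [afun]; omega
      rw [h, cf1e]
      show 3 ≤ (cfun (4 * (2 * j + 1) + 1, 0 + 4)).2
      rw [cf4]; simp
    · intro j
      have h : afun (2 * j + 1, 0) = (2 * j + 1, 1) := rfl
      rw [h, cf1o]
      have h : afun (4 * j, 0) = (2 * (2 * j), 1) := by simp [afun]; omega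
      rw [h, cf1e]
    · intro j
      have h : afun (2 * j, 1) = (2 * j, 2) := rfl
      rw [h, cf2e]
      show 3 ≤ (cfun (4 * j + 3, 0 + 4)).2
      rw [cf4]; simp
    · intro j
      have h : afun (2 * j + 1, 1) = (2 * j + 1, 2) := rfl
      rw [h, cf2o]
      have h : afun (4 * j + 2, 0) = (2 * (2 * j + 1), 1) := by simp [afun]; omega
      rw [h, cf1e]
    · intro j
      have h : afun (2 * j, 2) = (2 * j, 3) := rfl
      rw [h, cf3e]
      show 3 ≤ (cfun (2 * j, 0 + 4)).2
      rw [cf4]; simp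
    · intro j
      have h : afun (2 * j + 1, 2) = (2 * j + 1, 3) := rfl
      rw [h]
      have : j = 2 * (j / 2) ∨ j = 2 * (j / 2) + 1 := by omega
      rcases this with h | h
      · have h' : (2 * j + 1, 3) = ((4 * (j / 2) + 1, 3) : ℕ × ℕ) := by
          refine Prod.ext ?_ rfl; dsimp only; omega
        rw [h', cf3]
        show 3 ≤ (cfun (2 * (j / 2), 2)).2
        rw [cf2e]
      · have h' : (2 * j + 1, 3) = ((4 * (j / 2) + 3, 3) : ℕ × ℕ) := by
          refine Prod.ext ?_ rfl; dsimp only; omega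
        rw [h', cf3']
        show 3 ≤ (cfun (2 * (j / 2), 3)).2
        rw [cf3e]
    · intro j
      show 3 ≤ (cfun (afun (cfun (4 * j + 1, 0 + 4)))).2
      rw [cf4]
      show 3 ≤ (cfun (4 * j + 1, 1 + 4)).2
      rw [cf4]; simp
    · intro j
      show 3 ≤ (cfun (afun (cfun (4 * j + 3, 0 + 4)))).2
      rw [cf4]
      show 3 ≤ (cfun (4 * j + 3, 1 + 4)).2
      rw [cf4]; simp
    · intro j
      show 3 ≤ (cfun (afun (cfun (2 * j, 0 + 4)))).2
      rw [cf4]
      show 3 ≤ (cfun (2 * j, 1 + 4)).2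
      rw [cf4]; simp
    · intro i n
      show 3 ≤ (cfun (afun (cfun (i, n + 1 + 4)))).2
      rw [cf4]
      show 3 ≤ (cfun (i, n + 2 + 4)).2
      rw [cf4]; simp
  refine ⟨((cfun (afun (cfun (afun p)))).1, (cfun (afun (cfun (afun p)))).2 - 3), ?_⟩
  refine Prod.ext rfl ?_
  show (cfun (afun (cfun (afun p)))).2 = (cfun (afun (cfun (afun p)))).2 - 3 + 1 + 1 + 1
  omega

/-- `a` as a partial injection. -/
def aP : (ℕ × ℕ) ≃. (ℕ × ℕ) where
  toFun p := some (afun p)
  invFun p := if p.2 = 0 then none else some (p.1, p.2 - 1)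
  inv := by
    rintro ⟨i, n⟩ ⟨i', n'⟩
    constructor
    · intro h
      change (if n' = 0 then none else some (i', n' - 1)) = some (i, n) at h
      show some (i, n + 1) = some (i', n')
      split_ifs at h with h0
      simp only [Option.some.injEq, Prod.mk.injEq] at h ⊢
      omega
    · intro h
      change some (i, n + 1) = some (i', n') at h
      show (if n' = 0 then none else some (i', n' - 1)) = some (i, n)
      simp only [Option.some.injEq, Prod.mk.injEq] at h
      rw [if_neg (by omega)]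
      simp only [Option.some.injEq, Prod.mk.injEq]
      omega

/-- `c` as a permutation. -/
def cE : Equiv.Perm (ℕ × ℕ) where
  toFun := cfun
  invFun := cfun
  left_inv := cfun_invol
  right_inv := cfun_invol

/-- The action of the letters. -/
def gens : Fin 2 → (ℕ × ℕ) ≃. (ℕ × ℕ) := ![aP, cE.toPEquiv]

theorem aP_apply (p : ℕ × ℕ) : aP p = some (afun p) := rfl

theorem aP_symm_afun (p : ℕ × ℕ) : aP.symm (afun p) = some p := by
  rw [PEquiv.eq_some_iff]; rfl

theorem aP_symm_zero : aP.symm (0, 0) = none := rfl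

theorem act_uw (p : ℕ × ℕ) : ((act gens (FreeMonoid.ofList uw)) p).isSome = true := by
  obtain ⟨q, hq⟩ := key p
  have h : (act gens (FreeMonoid.ofList uw)) p = some q := by
    unfold uw
    simp only [act_cons]
    rw [PEquiv.trans_eq_some]
    refine ⟨afun p, rfl, ?_⟩
    rw [PEquiv.trans_eq_some]
    refine ⟨cfun (afun p), rfl, ?_⟩
    rw [PEquiv.trans_eq_some]
    refine ⟨afun (cfun (afun p)), rfl, ?_⟩
    rw [PEquiv.trans_eq_some]
    refine ⟨cfun (afun (cfun (afun p))), rfl, ?_⟩
    rw [hq, PEquiv.trans_eq_some]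
    refine ⟨afun (afun q), aP_symm_afun _, ?_⟩
    rw [PEquiv.trans_eq_some]
    refine ⟨afun q, aP_symm_afun _, ?_⟩
    rw [PEquiv.trans_eq_some]
    refine ⟨q, aP_symm_afun _, rfl⟩
  rw [h]; rfl

theorem act_rw0 : act gens (FreeMonoid.ofList rw0) = cE.toPEquiv := by
  unfold rw0
  rw [act_append, act_append, act_inv]
  have h2 : act gens (FreeMonoid.ofList uw) * (PEquiv.symm (act gens (FreeMonoid.ofList uw)))
      = (1 : PInj (ℕ × ℕ)) := PEquiv.trans_symm_eq_iff_forall_isSome.2 act_uw
  rw [h2, one_mul, act_cons]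
  exact PEquiv.trans_refl _

theorem act_pow {A V : Type} (g : A → V ≃. V) (r : SWord A) (k : ℕ) :
    act g (FreeMonoid.ofList (r.pow k)) = (act g (FreeMonoid.ofList r)) ^ k := by
  induction k with
  | zero => rfl
  | succ k ih =>
    have h : SWord.pow r (k + 1) = r ++ SWord.pow r k := by
      simp [SWord.pow, List.replicate_succ]
    rw [h, act_append, ih, pow_succ']

theorem act_rw0_pow (k : ℕ) (hk : Even k) : act gens (FreeMonoid.ofList (rw0.pow k)) = 1 := by
  obtain ⟨m, rfl⟩ := hk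
  rw [act_pow, act_rw0, ← two_mul, pow_mul]
  have h : ((cE.toPEquiv : PInj (ℕ × ℕ))) ^ 2 = 1 := by
    rw [pow_two]
    show PEquiv.trans cE.toPEquiv cE.toPEquiv = PEquiv.refl _
    rw [← Equiv.toPEquiv_trans]
    have : cE.trans cE = Equiv.refl _ := by
      ext1 p; exact cfun_invol p
    rw [this, Equiv.toPEquiv_refl]
  rw [h, one_pow]

theorem not_unit_a (k : ℕ) (hk : Even k) : ¬ IsUnit (val (rw0.pow k) [a]) := by
  rintro ⟨u, hu⟩
  have h1 : (↑u⁻¹ : InvMonoid (rw0.pow k)) * val (rw0.pow k) [a] = 1 := by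
    rw [← hu]; exact Units.inv_mul u
  have h2 := congrArg (liftAct gens (rw0.pow k) (act_rw0_pow k hk)) h1
  rw [map_mul, map_one, liftAct_val] at h2
  have h3 : PEquiv.trans (liftAct gens (rw0.pow k) (act_rw0_pow k hk) (↑u⁻¹)) 
      (act gens (FreeMonoid.ofList [a])) = PEquiv.refl (ℕ × ℕ) := h2
  have h4 : (PEquiv.trans (liftAct gens (rw0.pow k) (act_rw0_pow k hk) (↑u⁻¹))
      (act gens (FreeMonoid.ofList [a]))) (0, 0) = some (0, 0) := by
    rw [h3]; rfl
  rw [PEquiv.trans_eq_some] at h4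
  obtain ⟨t, -, ht⟩ := h4
  have h5 : (act gens (FreeMonoid.ofList [a])) t = some (afun t) := by
    rw [act_cons, PEquiv.trans_eq_some]
    exact ⟨afun t, rfl, rfl⟩
  rw [h5] at ht
  simp [afun] at ht

/-- **Answer to Q1: no.** -/
theorem result : ∃ r : SWord (Fin 2), r ≠ [] ∧
    ∀ k : ℕ, 2 ≤ k → Even k → minimalPieces (r.pow k) ≠ minimalPieces r := by
  refine ⟨rw0, by decide, fun k _ hk heq => ?_⟩
  have hmem : [a] ∈ minimalPieces rw0 := by
    refine ⟨0, 1, by omega, by decide, ?_, ?_, fun l h1 h2 => by omega, rfl⟩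
    · exact isUnit_one
    · exact unit_a
  rw [← heq] at hmem
  obtain ⟨i, j, hij, hj, hi, hju, -, hp⟩ := hmem
  have hlen := congrArg List.length hp
  simp only [List.length_cons, List.length_nil, List.length_drop, List.length_take] at hlen
  have hji : j = i + 1 := by omega
  have hsplit : (rw0.pow k).take j = (rw0.pow k).take i ++ [a] := by
    have := List.take_append_drop i ((rw0.pow k).take j)
    rw [List.take_take, min_eq_left hij.le, ← hp] at this
    exact this.symm
  rw [hsplit, val_append] at hju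
  apply not_unit_a k hk
  obtain ⟨u1, hu1⟩ := hi
  obtain ⟨u2, hu2⟩ := hju
  refine ⟨u1⁻¹ * u2, ?_⟩
  rw [Units.val_mul, hu2, ← hu1, Units.inv_mul_cancel_left]

end Pool.Agent.Results.MP_d4551b_al.PiecesOfPowersDiffer
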